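import Pool.Agent.K4H33.SK.Final

/-! General form: base zeta functions with weights, conjugations from a real embedding. -/

set_option autoImplicit false
set_option linter.style.haveILetI false

namespace Pool.Agent.K4H33.SQ
open NumberField Module IntermediateField Pool.Agent.K4H33.SK

lemma exists_conjData' (ι : Qbar →+* ℂ) {K k : IntermediateField ℚ Qbar}
    (hreal : ∃ σ : GQ, ∀ x ∈ K, (ι (σ x)).im = 0) (hk : finrank ℚ k = 2)
    (hN : Normal ℚ ↥(K ⊔ k)) (hι : ∃ x ∈ K, (ι x).im ≠ 0) :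
    ∃ c c₀ σ₀ : GQ, ConjData ι K k c c₀ σ₀ ∧ ∀ x ∈ K, (ι (σ₀ x)).im = 0 := by
  obtain ⟨c, hc⟩ := exists_conj ι
  obtain ⟨σ₁, hσ₁⟩ := hreal
  have hkn := quad_normal hk
  have hcc : c * c = 1 := by
    ext x
    apply ι.injective
    rw [AlgEquiv.mul_apply, hc, hc, Complex.conj_conj, AlgEquiv.one_apply]
  have hcK : ¬ Fixes K c := by
    intro h
    obtain ⟨x, hx, hx2⟩ := hι
    apply hx2
    have h1 := hc x
    rw [h x hx] at h1
    exact Complex.conj_eq_iff_im.1 h1.symm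
  set c₀ : GQ := σ₁⁻¹ * c * σ₁ with hc₀
  have hcinv : c⁻¹ = c := inv_eq_of_mul_eq_one_left hcc
  have hc₀c₀ : c₀ * c₀ = 1 := by
    rw [hc₀]
    calc σ₁⁻¹ * c * σ₁ * (σ₁⁻¹ * c * σ₁) = σ₁⁻¹ * (c * c) * σ₁ := by group
      _ = 1 := by rw [hcc]; group
  have hc₀K : Fixes K c₀ := by
    intro x hx
    rw [hc₀, AlgEquiv.mul_apply, AlgEquiv.mul_apply, AlgEquiv.aut_inv, AlgEquiv.symm_apply_eq]
    apply ι.injective
    rw [hc]
    exact Complex.conj_eq_iff_im.2 (hσ₁ x hx)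
  have hcc₀ : c = σ₁ * c₀ * σ₁⁻¹ := by rw [hc₀]; group
  have hc₀k : ¬ Fixes k c₀ := by
    intro h
    apply hcK
    have h1 : Fixes (K ⊔ k) c₀ := fixes_sup.2 ⟨hc₀K, h⟩
    have h2 := h1.conj hN σ₁
    rw [← hcc₀] at h2
    exact (fixes_sup.1 h2).1
  have hck : ¬ Fixes k c := by
    intro h
    exact hc₀k (h.conj' hkn σ₁)
  have hak : Fixes k (c * c₀) := quad hk hck hc₀k
  have haK : ¬ Fixes K (c * c₀) := by
    intro h
    apply hcK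
    have h1 := h.mul hc₀K
    rwa [mul_assoc, hc₀c₀, mul_one] at h1
  obtain ⟨σ₀, hs1, hs2, hs3⟩ : ∃ σ₀ : GQ, Fixes k σ₀ ∧ σ₀ * c₀ = c * σ₀ ∧
      ∀ x ∈ K, (ι (σ₀ x)).im = 0 := by
    by_cases h : Fixes k σ₁
    · exact ⟨σ₁, h, by rw [hc₀]; group, hσ₁⟩
    · refine ⟨c * σ₁, quad hk hck h, ?_, ?_⟩
      · rw [hc₀]
        group
      · intro x hx
        rw [AlgEquiv.mul_apply, hc, Complex.conj_im, hσ₁ x hx, neg_zero]
  have hsK : ¬ Fixes K σ₀ := by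
    intro h
    apply hcK
    have h1 : c = σ₀ * c₀ * σ₀⁻¹ := by rw [hs2]; group
    rw [h1]
    exact (h.mul hc₀K).mul h.inv
  refine ⟨c, c₀, σ₀, ⟨hc, hs2, hcc, hc₀c₀, hs1, hsK, hc₀K, hc₀k, hak, haK, ?_⟩, hs3⟩
  intro h
  apply hsK
  have h1 : Fixes (K ⊔ k) (σ₀ * (c * c₀)⁻¹) := fixes_sup.2 ⟨h, hs1.mul hak.inv⟩
  have h2 : σ₀ = c⁻¹ * (σ₀ * (c * c₀)⁻¹) * c := by
    have h3 : c₀⁻¹ = c₀ := inv_eq_of_mul_eq_one_left hc₀c₀
    rw [mul_inv_rev, hcinv, h3]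
    calc σ₀ = (c * c) * σ₀ * (c * c) := by rw [hcc]; group
      _ = c * (c * σ₀) * c * c := by group
      _ = c * (σ₀ * c₀) * c * c := by rw [hs2]
      _ = _ := by group
  rw [h2]
  exact (fixes_sup.1 (h1.conj' hN c)).1

section

variable {K k k' : IntermediateField ℚ Qbar} [NumberField K] [NumberField k]
  {𝔪 : Ideal (𝓞 k)} {art : Ideal (𝓞 k) → GQ} {artK : Ideal (𝓞 K) → GQ} {f : ℕ} [NeZero f]
  {ζ : Qbar} (hζ : IsPrimitiveRoot ζ f)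

/-- **The coefficient identity**, with weights `R`. -/
lemma coeff_identity' (hf : 2 ≤ f) (hk' : k' ≤ ℚ⟮ζ⟯) (h𝔪 : 𝔪 ≤ Ideal.span {(f : 𝓞 k)})
    (hart : IsArtin k (K ⊔ k ⊔ ℚ⟮ζ⟯) 𝔪 art)
    (hartK : IsArtin K (K ⊔ ℚ⟮ζ⟯) (Ideal.span {(f : 𝓞 K)}) artK) {a : GQ}
    (hak' : Fixes k' a) (R : ℕ → ℕ)
    (hA : ∀ n : ℕ, n.Coprime f → (Nat.card {𝔞 : Ideal (𝓞 K) // Ideal.absNorm 𝔞 = n} : ℤ) =
      ∑ i ∈ n.divisorsAntidiagonal, (R i.1 : ℤ) *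
        ((cnt k (K ⊔ k) 𝔪 art 1 i.2 : ℤ) - cnt k (K ⊔ k) 𝔪 art a i.2))
    (Y : Subgroup (QQ hζ k')) [Fintype Y] (hY : ∀ g, Fixes (K ⊔ k) g → qq hζ k' g ∈ Y)
    (g : Y → GQ) (hg1 : ∀ y, Fixes (K ⊔ k) (g y)) (hg2 : ∀ y, qq hζ k' (g y) = y)
    {σ : GQ} (hσ : Fixes K σ) (n : ℕ) :
    (cnt K (K ⊔ k') (Ideal.span {(f : 𝓞 K)}) artK σ n : ℂ) =
      ∑ y : Y, ∑ i ∈ n.divisorsAntidiagonal,
        (ind (pp hζ k') (qq hζ k' σ * (y : QQ hζ k')⁻¹) i.1 * (R i.1 : ℂ)) *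
        ((cnt k (K ⊔ k ⊔ k') 𝔪 art (g y) i.2 : ℂ) - cnt k (K ⊔ k ⊔ k') 𝔪 art (a * g y) i.2) := by
  classical
  have hM : ζ ∈ K ⊔ k ⊔ ℚ⟮ζ⟯ :=
    (le_sup_right : ℚ⟮ζ⟯ ≤ K ⊔ k ⊔ ℚ⟮ζ⟯) (mem_adjoin_simple_self ℚ ζ)
  have hMK : ζ ∈ K ⊔ ℚ⟮ζ⟯ := (le_sup_right : ℚ⟮ζ⟯ ≤ K ⊔ ℚ⟮ζ⟯) (mem_adjoin_simple_self ℚ ζ)
  have hqa : qq hζ k' a = 1 := by
    rw [← map_one (qq hζ k'), qq_eq_iff hζ hk']
    exact hak'
  set c1 : ℕ → ℂ := fun d => cnt k (K ⊔ k) 𝔪 art 1 d with hc1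
  set ca : ℕ → ℂ := fun d => cnt k (K ⊔ k) 𝔪 art a d with hca
  have e1 : ∀ (y : Y) (d : ℕ), (cnt k (K ⊔ k ⊔ k') 𝔪 art (g y) d : ℂ) =
      ind (pp hζ k') (y : QQ hζ k') (d : ZMod f) * c1 d := by
    intro y d
    rw [cnt_sup hart hf hζ hM h𝔪 hk', hg2, cnt_congr k (K ⊔ k) 𝔪 art (hg1 y : _) (g' := 1)]
  have e2 : ∀ (y : Y) (d : ℕ), (cnt k (K ⊔ k ⊔ k') 𝔪 art (a * g y) d : ℂ) =
      ind (pp hζ k') (y : QQ hζ k') (d : ZMod f) * ca d := by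
    intro y d
    have e0 : qq hζ k' (a * g y) = y := by
      rw [map_mul, hqa]
      exact (one_mul _).trans (hg2 y)
    rw [cnt_sup hart hf hζ hM h𝔪 hk', e0,
      cnt_congr k (K ⊔ k) 𝔪 art (g := a * g y) (g' := a)]
    intro x hx
    rw [AlgEquiv.mul_apply, hg1 y x hx]
  -- ideals whose norm is not in `Y` do not occur
  have e3 : ∀ (u : (ZMod f)ˣ) (d : ℕ), (u : ZMod f) = d → pp hζ k' u ∉ Y → ∀ τ : GQ,
      qq hζ k' τ = 1 → cnt k (K ⊔ k) 𝔪 art τ d = 0 := by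
    intro u d hu hy τ hτ
    unfold cnt
    rw [Nat.card_eq_zero]
    left
    rw [isEmpty_subtype]
    rintro 𝔟 ⟨h1, h2, h4⟩
    apply hy
    have h3 : qq hζ k' (art 𝔟) = pp hζ k' u :=
      qq_art hart hf hζ hM h𝔪 h2 (by rw [hu, h1])
    have h5 : Fixes (K ⊔ k) (τ⁻¹ * art 𝔟) := agree_iff.1 h4
    have h6 := hY _ h5
    rw [map_mul, map_inv, hτ, inv_one, h3] at h6
    have h7 : (1 : QQ hζ k') * pp hζ k' u = pp hζ k' u := one_mul (pp hζ k' u)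
    rwa [h7] at h6
  have key : ∀ e d : ℕ, ∑ y : Y,
      (ind (pp hζ k') (qq hζ k' σ * (y : QQ hζ k')⁻¹) (e : ZMod f) * (R e : ℂ)) *
      (ind (pp hζ k') (y : QQ hζ k') (d : ZMod f) * c1 d -
        ind (pp hζ k') (y : QQ hζ k') (d : ZMod f) * ca d) =
      ind (pp hζ k') (qq hζ k' σ) ((e * d : ℕ) : ZMod f) * ((R e : ℂ) * (c1 d - ca d)) := by
    intro e d
    by_cases hd : IsUnit (d : ZMod f)
    · obtain ⟨u, hu⟩ := hd
      by_cases he : IsUnit (e : ZMod f)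
      · obtain ⟨v, hv⟩ := he
        by_cases hy : pp hζ k' u ∈ Y
        · rw [Finset.sum_eq_single (⟨pp hζ k' u, hy⟩ : Y)]
          · have h1 : ind (pp hζ k') (pp hζ k' u) (d : ZMod f) = 1 := by
              rw [← hu, ind_unit, if_pos rfl]
            have h2 : ((e * d : ℕ) : ZMod f) = ((v * u : (ZMod f)ˣ) : ZMod f) := by
              rw [Nat.cast_mul, ← hu, ← hv, Units.val_mul]
            rw [h1, one_mul, one_mul, ← hv, h2, ind_unit, ind_unit, map_mul]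
            simp only [← eq_mul_inv_iff_mul_eq]
            ring
          · intro y _ hy2
            have h1 : ind (pp hζ k') (y : QQ hζ k') (d : ZMod f) = 0 := by
              rw [← hu, ind_unit, if_neg]
              intro h
              apply hy2
              exact Subtype.ext h.symm
            rw [h1, zero_mul, zero_mul, sub_zero, mul_zero]
          · intro h
            exact absurd (Finset.mem_univ _) h
        · have h1 : c1 d = 0 := by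
            simp only [hc1]; rw [e3 u d hu hy 1 (map_one _), Nat.cast_zero]
          have h2 : ca d = 0 := by
            simp only [hca]; rw [e3 u d hu hy a hqa, Nat.cast_zero]
          rw [h1, h2]
          simp
      · rw [ind_not (pp hζ k') (qq hζ k' σ) (j := ((e * d : ℕ) : ZMod f)), zero_mul]
        · refine Finset.sum_eq_zero fun y _ => ?_
          rw [ind_not _ _ he, zero_mul, zero_mul]
        · rw [Nat.cast_mul]
          intro h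
          exact he (isUnit_of_mul_isUnit_left h)
    · rw [ind_not (pp hζ k') (qq hζ k' σ) (j := ((e * d : ℕ) : ZMod f)), zero_mul]
      · refine Finset.sum_eq_zero fun y _ => ?_
        rw [ind_not (pp hζ k') (y : QQ hζ k') hd]
        simp
      · rw [Nat.cast_mul]
        intro h
        exact hd (isUnit_of_mul_isUnit_right h)
  rw [Finset.sum_comm]
  have h1 : ∑ i ∈ n.divisorsAntidiagonal, ∑ y : Y,
      (ind (pp hζ k') (qq hζ k' σ * (y : QQ hζ k')⁻¹) i.1 * (R i.1 : ℂ)) *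
        ((cnt k (K ⊔ k ⊔ k') 𝔪 art (g y) i.2 : ℂ) - cnt k (K ⊔ k ⊔ k') 𝔪 art (a * g y) i.2) =
      ∑ i ∈ n.divisorsAntidiagonal, ind (pp hζ k') (qq hζ k' σ) (n : ZMod f) *
        ((R i.1 : ℂ) * (c1 i.2 - ca i.2)) := by
    refine Finset.sum_congr rfl fun i hi => ?_
    rw [Nat.mem_divisorsAntidiagonal] at hi
    rw [← hi.1, ← key]
    refine Finset.sum_congr rfl fun y _ => ?_
    rw [e1, e2]
  rw [h1, ← Finset.mul_sum]
  by_cases hn : n.Coprime f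
  · rw [cnt_sup hartK hf hζ hMK le_rfl hk', cnt_base hartK hσ hn]
    congr 1
    have h3 : ((Nat.card {𝔞 : Ideal (𝓞 K) // Ideal.absNorm 𝔞 = n} : ℤ) : ℂ) =
      ((∑ i ∈ n.divisorsAntidiagonal, (R i.1 : ℤ) *
        ((cnt k (K ⊔ k) 𝔪 art 1 i.2 : ℤ) - cnt k (K ⊔ k) 𝔪 art a i.2) : ℤ) : ℂ) := by
      rw [hA n hn]
    push_cast at h3
    exact h3
  · rw [cnt_sup hartK hf hζ hMK le_rfl hk', ind_not, zero_mul, zero_mul]
    rwa [ZMod.isUnit_iff_coprime]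

end

/-! ### Continuation with general base functions -/

section

variable {k' : IntermediateField ℚ Qbar} {f : ℕ} [NeZero f] {ζ : Qbar} (hζ : IsPrimitiveRoot ζ f)
  (zB : QQ hζ k' → ℂ → ℂ)
  (Y : Subgroup (QQ hζ k')) [Fintype Y] (g : Y → GQ) (a : GQ) (Z : GQ → ℂ → ℂ)

/-- The continuation of the partial zeta function of `σ`. -/
noncomputable def ZB (σ : GQ) (s : ℂ) : ℂ :=
  ∑ y : Y, zB (qq hζ k' σ * (y : QQ hζ k')⁻¹) s * (Z (g y) s - Z (a * g y) s)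

lemma ZB_isZeta {c : GQ → ℕ → ℕ} {σ : GQ} {cK : ℕ → ℕ} {R : ℕ → ℕ}
    (hz : ∀ x, DifferentiableOn ℂ (zB x) {1}ᶜ)
    (hz2 : ∀ x (s : ℂ), 1 < s.re →
      LSeriesHasSum (fun n : ℕ => ind (pp hζ k') x (n : ZMod f) * (R n : ℂ)) s (zB x s))
    (h1 : ∀ y, IsZeta (c (g y)) (Z (g y))) (h2 : ∀ y, IsZeta (c (a * g y)) (Z (a * g y)))
    (h : ∀ n, (cK n : ℂ) = ∑ y : Y, ∑ i ∈ n.divisorsAntidiagonal,
      (ind (pp hζ k') (qq hζ k' σ * (y : QQ hζ k')⁻¹) i.1 * (R i.1 : ℂ)) *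
        ((c (g y) i.2 : ℂ) - c (a * g y) i.2)) : IsZeta cK (ZB hζ zB Y g a Z σ) := by
  constructor
  · unfold ZB
    refine DifferentiableOn.fun_sum fun y _ => ?_
    exact DifferentiableOn.mul (hz _) ((h1 y).1.sub (h2 y).1)
  · intro s hs
    have h3 : ∀ y ∈ (Finset.univ : Finset Y), LSeriesHasSum (LSeries.convolution
        (fun n : ℕ => ind (pp hζ k') (qq hζ k' σ * (y : QQ hζ k')⁻¹) (n : ZMod f) * (R n : ℂ))
        ((fun n => (c (g y) n : ℂ)) - fun n => (c (a * g y) n : ℂ))) s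
        (zB (qq hζ k' σ * (y : QQ hζ k')⁻¹) s * (Z (g y) s - Z (a * g y) s)) :=
      fun y _ => (hz2 _ s hs).convolution (((h1 y).2 s hs).sub ((h2 y).2 s hs))
    have h4 := LSeriesHasSum.sum h3
    refine (LSeriesHasSum_congr s _ (fun {n} _ => ?_)).1 h4
    rw [h n, Finset.sum_apply]
    refine Finset.sum_congr rfl fun y _ => ?_
    rw [LSeries.convolution_def]
    rfl

lemma ZB_zero {σ : GQ} (h1 : ∀ y, Z (g y) 0 = 0) (h2 : ∀ y, Z (a * g y) 0 = 0) :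
    ZB hζ zB Y g a Z σ 0 = 0 := by
  unfold ZB
  refine Finset.sum_eq_zero fun y _ => ?_
  rw [h1, h2, sub_zero, mul_zero]

lemma ZB_deriv {σ : GQ} (hz : ∀ x, DifferentiableOn ℂ (zB x) {1}ᶜ)
    (h1 : ∀ y, Z (g y) 0 = 0) (h2 : ∀ y, Z (a * g y) 0 = 0)
    (h3 : ∀ y, DifferentiableOn ℂ (Z (g y)) {1}ᶜ)
    (h4 : ∀ y, DifferentiableOn ℂ (Z (a * g y)) {1}ᶜ) :
    deriv (ZB hζ zB Y g a Z σ) 0 = ∑ y : Y,
      zB (qq hζ k' σ * (y : QQ hζ k')⁻¹) 0 *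
        (deriv (Z (g y)) 0 - deriv (Z (a * g y)) 0) := by
  have hn : ({1}ᶜ : Set ℂ) ∈ nhds (0 : ℂ) := isOpen_compl_singleton.mem_nhds (by simp)
  have d1 : ∀ y : Y, DifferentiableAt ℂ (Z (g y)) 0 := fun y => (h3 y).differentiableAt hn
  have d2 : ∀ y : Y, DifferentiableAt ℂ (Z (a * g y)) 0 := fun y => (h4 y).differentiableAt hn
  have d3 : ∀ y : Y, DifferentiableAt ℂ (zB (qq hζ k' σ * (y : QQ hζ k')⁻¹)) 0 := fun y =>
    (hz _).differentiableAt hn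
  have h5 : HasDerivAt (ZB hζ zB Y g a Z σ) (∑ y : Y,
      (deriv (zB (qq hζ k' σ * (y : QQ hζ k')⁻¹)) 0 *
        (Z (g y) 0 - Z (a * g y) 0) + zB (qq hζ k' σ * (y : QQ hζ k')⁻¹) 0 *
          (deriv (Z (g y)) 0 - deriv (Z (a * g y)) 0))) 0 := by
    have h6 := HasDerivAt.fun_sum (u := (Finset.univ : Finset Y))
      (A := fun y s => zB (qq hζ k' σ * (y : QQ hζ k')⁻¹) s *
        (Z (g y) s - Z (a * g y) s)) (x := (0 : ℂ))
      (fun y _ => (d3 y).hasDerivAt.mul ((d1 y).hasDerivAt.sub (d2 y).hasDerivAt))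
    exact h6
  rw [h5.deriv]
  refine Finset.sum_congr rfl fun y _ => ?_
  rw [h1, h2, sub_zero, mul_zero, zero_add]

end

end Pool.Agent.K4H33.SQ
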