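import Pool.Agent.K4H33.SQ.Base

/-! The general transfer theorem: Stark units over `K` from elliptic units and Stickelberger elements
of a totally real subfield. -/

set_option autoImplicit false
set_option linter.style.haveILetI false

namespace Pool.Agent.K4H33.SQ
open NumberField Module IntermediateField Pool.Agent.K4H33.SK

/-- **The general transfer theorem.** -/
theorem transfer (ι : Qbar →+* ℂ) (K k k' : IntermediateField ℚ Qbar) [NumberField K]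
    [NumberField k] (hk : finrank ℚ k = 2) (hN : Normal ℚ ↥(K ⊔ k))
    {c c₀ σ₀ : GQ} (hD : ConjData ι K k c c₀ σ₀) (f : ℕ) [NeZero f] (hf : 2 ≤ f) (ζ : Qbar)
    (hζ : IsPrimitiveRoot ζ f)
    (hk' : k' ≤ ℚ⟮ζ⟯) (𝔪 : Ideal (𝓞 k)) (h𝔪 : 𝔪 ≤ Ideal.span {(f : 𝓞 k)})
    (art : Ideal (𝓞 k) → GQ) (hart : IsArtin k (K ⊔ k ⊔ ℚ⟮ζ⟯) 𝔪 art)
    (artK : Ideal (𝓞 K) → GQ)
    (hartK : IsArtin K (K ⊔ ℚ⟮ζ⟯) (Ideal.span {(f : 𝓞 K)}) artK) (R : ℕ → ℕ)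
    (hA : ∀ n : ℕ, n.Coprime f → (Nat.card {𝔞 : Ideal (𝓞 K) // Ideal.absNorm 𝔞 = n} : ℤ) =
      ∑ i ∈ n.divisorsAntidiagonal, (R i.1 : ℤ) *
        ((cnt k (K ⊔ k) 𝔪 art 1 i.2 : ℤ) - cnt k (K ⊔ k) 𝔪 art (c * c₀) i.2))
    (hs1 : ∀ n, cnt k (K ⊔ k ⊔ k') 𝔪 art σ₀ n = cnt k (K ⊔ k ⊔ k') 𝔪 art (σ₀ * (c * c₀)⁻¹) n)
    (hs2 : ∀ g : GQ, Fixes (K ⊔ k) g → ∀ n, cnt k (K ⊔ k ⊔ k') 𝔪 art (g * (c * c₀)⁻¹) n =
      cnt k (K ⊔ k ⊔ k') 𝔪 art (c * c₀ * g) n)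
    (zB : QQ hζ k' → ℂ → ℂ) (θ : QQ hζ k' → ℚ)
    (hz : ∀ x, DifferentiableOn ℂ (zB x) {1}ᶜ)
    (hz2 : ∀ x (s : ℂ), 1 < s.re →
      LSeriesHasSum (fun n : ℕ => ind (pp hζ k') x (n : ZMod f) * (R n : ℂ)) s (zB x s))
    (hz0 : ∀ x, zB x 0 = (θ x : ℂ)) (hθ : ∀ x, θ (qq hζ k' c₀ * x) = -θ x)
    (W : ℕ) (hW : IsTorsionOrder (K ⊔ k') W) (hWθ : ∀ x, ∃ t : ℤ, (W : ℚ) * θ x = t)
    (hn : ∀ σ : GQ, Fixes K σ → ∃ (n : ℕ) (u : QQ hζ k' → ℤ),
        (∀ ξ : Qbar, ξ ^ W = 1 → σ ξ = ξ ^ n) ∧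
        (∀ x, (u x : ℚ) = θ (qq hζ k' σ * x) - n * θ x))
    (W' : ℕ) (hW' : IsTorsionOrder (K ⊔ k ⊔ k') W')
    (hS : StarkImQuad ι k (K ⊔ k ⊔ k') 𝔪 art W') :
    StarkCubic ι K (K ⊔ k') (Ideal.span {(f : 𝓞 K)}) artK W := by
  classical
  obtain ⟨Z, ε, hε, hε0, hlim, hint, hab⟩ := hS
  set a : GQ := c * c₀ with ha
  have hkE : k ≤ K ⊔ k ⊔ k' := le_sup_right.trans le_sup_left
  have haζ : a ζ = ζ := hD.a_root (NeZero.ne f) hζ.pow_eq_one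
  have haζ' : Fixes ℚ⟮ζ⟯ a := fixes_adjoin haζ
  have hak' : Fixes k' a := haζ'.mono hk'
  have hk2 : ∀ {τ : GQ}, Fixes (K ⊔ k) τ → Fixes k τ := fun h => (fixes_sup.1 h).2
  -- the unit `κ`
  have hsym : deriv (Z σ₀) 0 = deriv (Z (σ₀ * (c * c₀)⁻¹)) 0 := by
    have h1 : Fixes k (σ₀ * (c * c₀)⁻¹) := hD.s_k.mul hD.a_k.inv
    exact (isZeta_deriv (hlim σ₀ hD.s_k).1 (hlim _ h1).1 fun n _ => hs1 n).1
  obtain ⟨κ, hκE, hκ0, hκi, hκi', hcκ, hlog⟩ :=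
    exists_kappa hD hkE hW'.1 hε hε0 hlim hint hab hsym
  -- the group `Y`
  set Y : Subgroup (QQ hζ k') := (K ⊔ k).fixingSubgroup.map (qq hζ k') with hYdef
  haveI : Fintype Y := Fintype.ofFinite Y
  have hY : ∀ g, Fixes (K ⊔ k) g → qq hζ k' g ∈ Y := fun g hg => ⟨g, fixes_iff.1 hg, rfl⟩
  have hYex : ∀ y : Y, ∃ g : GQ, Fixes (K ⊔ k) g ∧ qq hζ k' g = y := by
    rintro ⟨y, g, hg, hy⟩
    exact ⟨g, fixes_iff.2 hg, hy⟩
  choose g hg1 hg2 using hYex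
  -- the class of complex conjugation
  have hqc : qq hζ k' c = pp hζ k' (-1) := by rw [qq_apply, aut_conj hζ hD.conj]
  have hqc₀ : qq hζ k' c₀ = qq hζ k' c := by
    have h1 := congrArg (qq hζ k') hD.rel
    rw [map_mul, map_mul, mul_comm] at h1
    exact mul_right_cancel h1
  -- the exponents
  choose T hT using hWθ
  have hTodd : ∀ x, T (qq hζ k' c₀ * x) = -T x := by
    intro x
    have h1 : (T (qq hζ k' c₀ * x) : ℚ) = -(T x : ℚ) := by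
      rw [← hT, ← hT, hθ]; ring
    exact_mod_cast h1
  set κY : Y → Qbar := fun y => g y κ with hκY
  have hκY0 : ∀ y, κY y ≠ 0 := fun y => by simpa [hκY] using hκ0
  have hact : ∀ (τ : GQ), Fixes K τ → ∀ t : QQ hζ k' → ℤ, (∀ x, t (qq hζ k' c₀ * x) = -t x) →
      τ (ell κY t) = ell κY (fun x => t (qq hζ k' τ * x)) := fun τ hτ t ht =>
    act_ell hζ hD hk hN hk' hY hg1 hg2 hκE hcκ hτ ht
  have hκYi : ∀ y, IsIntegral ℤ (κY y) := fun y => hκi.map ((g y : GQ) : Qbar →+* Qbar).toIntAlgHom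
  have hκYi' : ∀ y, IsIntegral ℤ (κY y)⁻¹ := fun y => by
    have h1 := hκi'.map ((g y : GQ) : Qbar →+* Qbar).toIntAlgHom
    have h2 : ((g y : GQ) : Qbar →+* Qbar).toIntAlgHom κ⁻¹ = (κY y)⁻¹ := map_inv₀ (g y) κ
    rwa [h2] at h1
  refine ⟨ZB hζ zB Y g a Z, ell κY T, ?_, ell_ne hκY0 T, ?_, ell_integral hκYi hκYi' T, ?_, ?_, ?_⟩
  · -- membership in `H`
    apply mem_of_fixed
    intro σ hσ
    have h1 : qq hζ k' σ = 1 := by
      rw [← map_one (qq hζ k'), qq_eq_iff hζ hk']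
      exact (fixes_sup.1 hσ).2
    rw [hact σ (fixes_sup.1 hσ).1 T hTodd, h1]
    congr 1
    ext x
    congr 1
    exact one_mul x
  · -- the limit formula
    intro σ hσ
    have hgk : ∀ y, Fixes k (g y) := fun y => hk2 (hg1 y)
    have hagk : ∀ y, Fixes k (a * g y) := fun y => hD.a_k.mul (hgk y)
    have z1 : ∀ y, Z (g y) 0 = 0 := fun y => (hlim _ (hgk y)).2.1
    have z2 : ∀ y, Z (a * g y) 0 = 0 := fun y => (hlim _ (hagk y)).2.1
    refine ⟨?_, ZB_zero hζ zB Y g a Z z1 z2, ?_⟩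
    · refine ZB_isZeta hζ zB Y g a Z (c := cnt k (K ⊔ k ⊔ k') 𝔪 art) hz hz2
        (fun y => (hlim _ (hgk y)).1) (fun y => (hlim _ (hagk y)).1) (fun n => ?_)
      exact coeff_identity' hζ hf hk' h𝔪 hart hartK hak' R hA Y hY g hg1 hg2 hσ n
    · rw [ZB_deriv hζ zB Y g a Z hz z1 z2 (fun y => (hlim _ (hgk y)).1.1)
        (fun y => (hlim _ (hagk y)).1.1), hact σ hσ T hTodd, log_ell ι hκY0]
      push_cast
      rw [Finset.mul_sum]
      refine Finset.sum_congr rfl fun y _ => ?_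
      have h1 := hlog (g y) (hgk y)
      have h2 : deriv (Z (g y * (c * c₀)⁻¹)) 0 = deriv (Z (a * g y)) 0 := by
        have h3 : Fixes k (g y * (c * c₀)⁻¹) := (hgk y).mul hD.a_k.inv
        exact (isZeta_deriv (hlim _ h3).1 (hlim _ (hagk y)).1 fun n _ => hs2 (g y) (hg1 y) n).1
      rw [h2] at h1
      have h6 : ((T (qq hζ k' σ * (y : QQ hζ k')⁻¹) : ℤ) : ℂ) =
          (W : ℂ) * zB (qq hζ k' σ * (y : QQ hζ k')⁻¹) 0 := by
        have h7 := hT (qq hζ k' σ * (y : QQ hζ k')⁻¹)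
        have h8 : (((T (qq hζ k' σ * (y : QQ hζ k')⁻¹) : ℤ) : ℚ) : ℂ) =
          ((W : ℚ) * θ (qq hζ k' σ * (y : QQ hζ k')⁻¹) : ℚ) := by rw [h7]
        push_cast at h8
        rw [hz0]
        exact h8
      have h9 : ((Real.log (‖ι (κY y)‖ ^ 2) : ℝ) : ℂ) =
          -(deriv (Z (g y)) 0 - deriv (Z (a * g y)) 0) := h1
      rw [h9, h6]
      ring
  · -- integrality of the inverse
    rw [← ell_neg]
    exact ell_integral hκYi hκYi' _
  · -- the real places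
    intro w hw
    obtain ⟨τ, hτ⟩ := exists_lift ι w
    have h1 : Fixes K (τ⁻¹ * c * τ) := by
      intro x hx
      rw [AlgEquiv.mul_apply, AlgEquiv.mul_apply, AlgEquiv.aut_inv, AlgEquiv.symm_apply_eq]
      apply ι.injective
      rw [hD.conj]
      have h2 := hw x hx
      rw [hτ] at h2
      exact Complex.conj_eq_iff_im.2 h2
    have h2 : qq hζ k' (τ⁻¹ * c * τ) = qq hζ k' c₀ := by
      rw [map_mul, map_mul, map_inv, hqc₀, mul_comm, mul_inv_cancel_left]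
    have h3 : (τ⁻¹ * c * τ) (ell κY T) = (ell κY T)⁻¹ := by
      rw [hact _ h1 T hTodd, ← ell_neg, h2]
      congr 1
      ext x
      rw [hTodd]
      rfl
    have h4 : c (τ (ell κY T)) = (τ (ell κY T))⁻¹ := by
      rw [← map_inv₀, ← h3, AlgEquiv.mul_apply, AlgEquiv.mul_apply, AlgEquiv.aut_inv,
        AlgEquiv.apply_symm_apply]
    have h5 : ι (τ (ell κY T)) ≠ 0 := by
      rw [Ne, map_eq_zero]
      simpa using ell_ne hκY0 T
    have h6 := hD.conj (τ (ell κY T))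
    rw [h4, map_inv₀] at h6
    have h7 : ι (τ (ell κY T)) * (starRingEnd ℂ) (ι (τ (ell κY T))) = 1 := by
      rw [← h6, mul_inv_cancel₀ h5]
    rw [Complex.mul_conj, Complex.normSq_eq_norm_sq] at h7
    rw [hτ]
    have h8 : ‖ι (τ (ell κY T))‖ ^ 2 = 1 := by exact_mod_cast h7
    exact (pow_eq_one_iff_of_nonneg (norm_nonneg _) two_ne_zero).1 h8
  · -- the abelian root property
    intro lam hlam σ τ hσ hτ
    have hlam0 : lam ≠ 0 := by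
      rintro rfl
      rw [zero_pow hW.1.ne'] at hlam
      exact ell_ne hκY0 T hlam.symm
    obtain ⟨n, u, hn1, hu⟩ := hn σ hσ
    obtain ⟨m, v, hm1, hv⟩ := hn τ hτ
    have hlcomm : ∀ x y z : QQ hζ k', x * (y * z) = y * (x * z) := fun x y z => mul_left_comm x y z
    have hodd : ∀ (σ : GQ) (n : ℕ) (u : QQ hζ k' → ℤ),
        (∀ x, (u x : ℚ) = θ (qq hζ k' σ * x) - n * θ x) →
        ∀ x, u (qq hζ k' c₀ * x) = -u x := by
      intro σ n u hu x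
      have h1 : (u (qq hζ k' c₀ * x) : ℚ) = -(u x : ℚ) := by
        rw [hu, hu, hlcomm, hθ, hθ]
        ring
      exact_mod_cast h1
    have hpw : ∀ (σ : GQ), Fixes K σ → ∀ (n : ℕ) (u : QQ hζ k' → ℤ),
        (∀ x, (u x : ℚ) = θ (qq hζ k' σ * x) - n * θ x) →
        (σ lam) ^ W = (lam ^ n * ell κY u) ^ W := by
      intro σ hσ n u hu
      rw [← map_pow, hlam, hact σ hσ T hTodd, mul_pow, ← pow_mul, mul_comm n W, pow_mul, hlam,
        ell_pow, ell_pow, ← ell_add hκY0]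
      congr 1
      ext x
      have h1 : (T (qq hζ k' σ * x) : ℚ) = n * T x + W * u x := by
        rw [← hT, ← hT, hu]
        ring
      rw [Pi.add_apply]
      exact_mod_cast h1
    refine comm_of_cocycle hlam0 (ell_ne hκY0 u) (ell_ne hκY0 v) hn1 hm1 (hpw σ hσ n u hu)
      (hpw τ hτ m v hv) ?_
    rw [hact τ hτ u (hodd σ n u hu), hact σ hσ v (hodd τ m v hv), ell_pow, ell_pow,
      ← ell_add hκY0, ← ell_add hκY0]
    congr 1
    ext x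
    rw [Pi.add_apply, Pi.add_apply]
    have h1 : (n : ℚ) * v x + u (qq hζ k' τ * x) = m * u x + v (qq hζ k' σ * x) := by
      rw [hu, hu, hv, hv, hlcomm (qq hζ k' σ) (qq hζ k' τ) x]
      ring
    exact_mod_cast h1

end Pool.Agent.K4H33.SQ
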