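import Pool.Agent.K4H33.SQ.MainB
import Pool.Agent.K4H33.SK.Stmt

/-! Quartic fields with exactly one complex place. -/

set_option autoImplicit false
set_option linter.style.haveILetI false

namespace Pool.Agent.K4H33.SQ
open NumberField Module IntermediateField Pool.Agent.K4H33.SK
open Pool.Agent.K4H33.SK.Stmt (Sub Ideals nrm Cop prd principal cntAll PrimesOver)

/-- Relative quadratic extensions. -/
lemma quadRel {F K : IntermediateField ℚ Qbar} (hle : F ≤ K) (hF : finrank ℚ F = 2)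
    (hK : finrank ℚ K = 4) {σ τ : GQ} (hσ : Fixes F σ) (hτ : Fixes F τ) (hσK : ¬ Fixes K σ)
    (hτK : ¬ Fixes K τ) : Fixes K (σ * τ) := by
  haveI : FiniteDimensional ℚ F := FiniteDimensional.of_finrank_pos (by rw [hF]; norm_num)
  haveI : FiniteDimensional ℚ K := FiniteDimensional.of_finrank_pos (by rw [hK]; norm_num)
  let M : IntermediateField F Qbar := IntermediateField.extendScalars hle
  haveI i1 : FiniteDimensional ℚ ↥K := inferInstance
  haveI i4 : FiniteDimensional ℚ M := i1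
  haveI i5 : IsScalarTower ℚ F M := inferInstance
  haveI i7 : FiniteDimensional F M := FiniteDimensional.right ℚ F M
  have hd2 : finrank F M = 2 := by
    have h1 := finrank_mul_finrank ℚ F M
    have h2 : finrank ℚ M = 4 := hK
    rw [h2, hF] at h1
    omega
  haveI : Algebra.IsQuadraticExtension F M := ⟨hd2⟩
  haveI i6 : Normal F M := Algebra.IsQuadraticExtension.normal F M
  haveI i8 : IsGalois F M := ⟨⟩
  have hc : Nat.card (M ≃ₐ[F] M) = 2 := by rw [IsGalois.card_aut_eq_finrank, hd2]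
  haveI : Fact (Nat.Prime 2) := ⟨Nat.prime_two⟩
  haveI i9 : Finite (M ≃ₐ[F] M) := Nat.finite_of_card_ne_zero (by rw [hc]; norm_num)
  let r : F.fixingSubgroup →* (M ≃ₐ[F] M) :=
    (AlgEquiv.restrictNormalHom M).comp (IntermediateField.fixingSubgroupEquiv F).toMonoidHom
  have hr : ∀ (g : F.fixingSubgroup) (x : M), ((r g x : M) : Qbar) = (g : GQ) x := by
    intro g x
    exact AlgEquiv.restrictNormal_commutes (IntermediateField.fixingSubgroupEquiv F g) M x
  have h1 : ∀ g : F.fixingSubgroup, r g = 1 ↔ Fixes K (g : GQ) := by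
    intro g
    constructor
    · intro h x hx
      have e1 := hr g ⟨x, hx⟩
      rw [h] at e1
      exact e1.symm
    · intro h
      ext x
      exact (hr g x).trans (h _ x.2)
  set s : F.fixingSubgroup := ⟨σ, fixes_iff.1 hσ⟩ with hs
  set t : F.fixingSubgroup := ⟨τ, fixes_iff.1 hτ⟩ with ht
  have hs1 : r s ≠ 1 := fun h => hσK ((h1 s).1 h)
  have ht1 : r t ≠ 1 := fun h => hτK ((h1 t).1 h)
  have h3 : (r s) ^ 2 = 1 := by rw [← hc]; exact pow_card_eq_one'
  have h5 := mem_zpowers_of_prime_card hc (g' := r t) hs1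
  have h6 : r t ∈ Submonoid.powers (r s) := mem_powers_iff_mem_zpowers.2 h5
  obtain ⟨n, hn⟩ := h6
  have hn : (r s) ^ n = r t := hn
  have h7 : r (s * t) = 1 := by
    rw [map_mul]
    rcases Nat.even_or_odd' n with ⟨m, rfl | rfl⟩
    · rw [pow_mul, h3, one_pow] at hn
      exact absurd hn.symm ht1
    · rw [pow_add, pow_mul, h3, one_pow, one_mul, pow_one] at hn
      rw [← hn, ← pow_two, h3]
  exact (h1 (s * t)).1 h7

/-- Complex conjugations fixing `F`, for the real places of `F`. -/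
def IsConjAt (F : Sub) (c : GQ) : Prop :=
  ∃ w : Qbar →+* ℂ, (∀ x ∈ F, (w x).im = 0) ∧ ∀ x, w (c x) = (starRingEnd ℂ) (w x)

/-- `τ` acts on the roots of unity of `L` as the `n`-th power map. -/
def PowerOn (L : Sub) (τ : GQ) (n : ℕ) : Prop :=
  ∀ ξ ∈ L, (∃ m : ℕ, 0 < m ∧ ξ ^ m = 1) → τ ξ = ξ ^ n

/-- The theorem of Siegel, Klingen and Deligne–Ribet on the values at zero of the partial zeta
functions of an abelian extension `L` of a totally real field `F`: the values are rational, odd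
under complex conjugation, and the elements `τ - n` annihilating the roots of unity of `L` map the
Stickelberger element into the integral group ring. -/
def DeligneRibet (F L : Sub) [NumberField F] (𝔣 : Ideals F) (art : Ideals F → GQ) : Prop :=
  ∃ (Z : GQ → ℂ → ℂ) (θ : GQ → ℚ), ∀ σ : GQ, Fixes F σ →
    (IsZeta (Stmt.cnt F L 𝔣 art σ) (Z σ) ∧ Z σ 0 = (θ σ : ℂ)) ∧
    (∀ c : GQ, IsConjAt F c → θ (c * σ) = -θ σ) ∧
    ∀ (τ : GQ) (n : ℕ), Fixes F τ → PowerOn L τ n → ∃ t : ℤ, θ (τ * σ) - n * θ σ = t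

/-- The Artin factorization `ζ_K(s) = ζ_F(s) L(s, ψ)` of the zeta function of a quadratic
extension `K` of `F`, for the two characters `ψ` of `K ⊔ k` over `k` which are nontrivial over
`F ⊔ k`, on the coefficients prime to `f`. -/
def ArtinFactorization (F K k : Sub) [NumberField F] [NumberField K] [NumberField k]
    (f : ℕ) (𝔪 : Ideals k) (art : Ideals k → GQ) : Prop :=
  (∀ a : GQ, Fixes F a → Fixes k a → ¬ Fixes K a → ∀ n : ℕ, n.Coprime f →
    (cntAll K n : ℤ) = ∑ i ∈ n.divisorsAntidiagonal, (cntAll F i.1 : ℤ) *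
      ((Stmt.cnt k (K ⊔ k) 𝔪 art 1 i.2 : ℤ) - Stmt.cnt k (K ⊔ k) 𝔪 art a i.2)) ∧
  ∀ τ τ' : GQ, Fixes k τ → Fixes k τ' → ¬ Fixes F τ → ¬ Fixes F τ' → ∀ n : ℕ, n.Coprime f →
    Stmt.cnt k (K ⊔ k) 𝔪 art τ n = Stmt.cnt k (K ⊔ k) 𝔪 art τ' n

/-- The fields: `F` is real quadratic, `K` is a quadratic extension of `F` which is complex under
`ι` and has a real embedding (so `K` has exactly one complex place), `k` is a quadratic field with
`K ⊔ k` normal over `ℚ`, and `k'` is a subfield of the `f`-th cyclotomic field. -/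
structure Fields (ι : Qbar →+* ℂ) (F K k k' : Sub) (f : ℕ) (ζ : Qbar) : Prop where
  le : F ≤ K
  deg_F : finrank ℚ F = 2
  deg_K : finrank ℚ K = 4
  real_F : ∀ x ∈ F, (ι x).im = 0
  complex : ∃ x ∈ K, (ι x).im ≠ 0
  real_K : ∃ w : Qbar →+* ℂ, ∀ x ∈ K, (w x).im = 0
  deg_k : finrank ℚ k = 2
  normal : Normal ℚ ↥(K ⊔ k)
  two_le : 2 ≤ f
  prim : IsPrimitiveRoot ζ f
  sub : k' ≤ ℚ⟮ζ⟯

/-- The Artin symbols: those of `k` for `K ⊔ k ⊔ ℚ(ζ)` and a multiple `𝔪` of `f`, those of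
`K` for `K ⊔ ℚ(ζ)` and `f`, and those of `F` for `F ⊔ ℚ(ζ)` and `f`. -/
structure Symbols (F K k : Sub) [NumberField F] [NumberField K] [NumberField k] (f : ℕ) (ζ : Qbar)
    (𝔪 : Ideals k) (art : Ideals k → GQ) (artK : Ideals K → GQ) (artF : Ideals F → GQ) : Prop where
  dvd : 𝔪 ≤ principal k f
  art_k : Stmt.IsArtin k (K ⊔ k ⊔ ℚ⟮ζ⟯) 𝔪 art
  art_K : Stmt.IsArtin K (K ⊔ ℚ⟮ζ⟯) (principal K f) artK
  art_F : Stmt.IsArtin F (F ⊔ ℚ⟮ζ⟯) (principal F f) artF

theorem stark_quartic (ι : Qbar →+* ℂ) (F K k k' : Sub) [NumberField F] [NumberField K]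
    [NumberField k] (f : ℕ) (ζ : Qbar) (hF : Fields ι F K k k' f ζ) (𝔪 : Ideals k)
    (art : Ideals k → GQ) (artK : Ideals K → GQ) (artF : Ideals F → GQ)
    (hart : Symbols F K k f ζ 𝔪 art artK artF) (hA : ArtinFactorization F K k f 𝔪 art)
    (hDR : DeligneRibet F (F ⊔ k') (principal F f) artF) (W' : ℕ)
    (hW' : IsTorsionOrder (K ⊔ k ⊔ k') W') (hS : Stmt.StarkImQuad ι k (K ⊔ k ⊔ k') 𝔪 art W')
    (W : ℕ) (hW : IsTorsionOrder (K ⊔ k') W) :
    StarkCubic ι K (K ⊔ k') (Ideal.span {(f : 𝓞 K)}) artK W := by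
  classical
  have hf := hF.two_le
  haveI : NeZero f := ⟨by omega⟩
  have hζ := hF.prim
  have hk' := hF.sub
  obtain ⟨w₀, hw₀⟩ := hF.real_K
  obtain ⟨σ₁, hσ₁⟩ := exists_lift ι w₀
  obtain ⟨c, c₀, σ₀, hD, hreal⟩ := exists_conjData' ι
    ⟨σ₁, fun x hx => by rw [← hσ₁]; exact hw₀ x hx⟩ hF.deg_k hF.normal hF.complex
  have hKF : ∀ {τ : GQ}, Fixes K τ → Fixes F τ := fun h => h.mono hF.le
  have hcF : Fixes F c := by
    intro x hx
    apply ι.injective
    rw [hD.conj]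
    exact Complex.conj_eq_iff_im.2 (hF.real_F x hx)
  have hcK : ¬ Fixes K c := by
    intro h
    obtain ⟨x, hx, hx2⟩ := hF.complex
    apply hx2
    have h1 := hD.conj x
    rw [h x hx] at h1
    exact Complex.conj_eq_iff_im.1 h1.symm
  have haF : Fixes F (c * c₀) := hcF.mul (hKF hD.c₀_K)
  have hs0F : ¬ Fixes F σ₀ := by
    intro h
    have h1 : Fixes K (c * σ₀) := quadRel hF.le hF.deg_F hF.deg_K hcF h hcK hD.s_K
    apply hD.s_K
    have h2 : σ₀ = (c * σ₀) * c₀⁻¹ := by rw [← hD.rel]; group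
    rw [h2]
    exact h1.mul hD.c₀_K.inv
  have ha2 : Fixes (K ⊔ k) (c * c₀ * (c * c₀)) :=
    fixes_sup.2 ⟨quadRel hF.le hF.deg_F hF.deg_K haF haF hD.a_K hD.a_K, hD.a_k.mul hD.a_k⟩
  have haζ : (c * c₀) ζ = ζ := hD.a_root (NeZero.ne f) hζ.pow_eq_one
  have haζ' : Fixes ℚ⟮ζ⟯ (c * c₀) := fixes_adjoin haζ
  have hak' : Fixes k' (c * c₀) := haζ'.mono hk'
  have hM : ζ ∈ K ⊔ k ⊔ ℚ⟮ζ⟯ :=
    (le_sup_right : ℚ⟮ζ⟯ ≤ K ⊔ k ⊔ ℚ⟮ζ⟯) (mem_adjoin_simple_self ℚ ζ)
  have hMF : ζ ∈ F ⊔ ℚ⟮ζ⟯ := (le_sup_right : ℚ⟮ζ⟯ ≤ F ⊔ ℚ⟮ζ⟯) (mem_adjoin_simple_self ℚ ζ)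
  -- the base functions
  obtain ⟨Z, θ, hDR⟩ := hDR
  have hcntF : ∀ σ : GQ, Fixes F σ → ∀ n : ℕ, (cnt F (F ⊔ k') (principal F f) artF σ n : ℂ) =
      ind (pp hζ k') (qq hζ k' σ) (n : ZMod f) * (cntAll F n : ℂ) := by
    intro σ hσ n
    by_cases hn : n.Coprime f
    · rw [cnt_sup hart.art_F.down hf hζ hMF le_rfl hk', cnt_base hart.art_F.down hσ hn]
      rfl
    · rw [cnt_sup hart.art_F.down hf hζ hMF le_rfl hk', ind_not, zero_mul, zero_mul]
      rwa [ZMod.isUnit_iff_coprime]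
  have hwd : ∀ σ τ : GQ, Fixes F σ → Fixes F τ → qq hζ k' σ = qq hζ k' τ → θ σ = θ τ := by
    intro σ τ hσ hτ h
    have h1 := (isZeta_deriv (hDR σ hσ).1.1 (hDR τ hτ).1.1 (fun n _ => by
      have h2 : (cnt F (F ⊔ k') (principal F f) artF σ n : ℂ) =
        cnt F (F ⊔ k') (principal F f) artF τ n := by rw [hcntF σ hσ, hcntF τ hτ, h]
      exact_mod_cast h2)).2
    rw [(hDR σ hσ).1.2, (hDR τ hτ).1.2] at h1
    exact_mod_cast h1
  let X : QQ hζ k' → Prop := fun x => ∃ τ : GQ, Fixes F τ ∧ qq hζ k' τ = x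
  let pick : QQ hζ k' → GQ := fun x => if h : X x then h.choose else 1
  have hpick : ∀ x, X x → Fixes F (pick x) ∧ qq hζ k' (pick x) = x := by
    intro x h
    simp only [pick, dif_pos h]
    exact h.choose_spec
  let zB : QQ hζ k' → ℂ → ℂ := fun x => if X x then Z (pick x) else fun _ => 0
  let θB : QQ hζ k' → ℚ := fun x => if X x then θ (pick x) else 0
  have hXmul : ∀ (τ : GQ), Fixes F τ → ∀ x, X (qq hζ k' τ * x) ↔ X x := by
    intro τ hτ x
    constructor
    · rintro ⟨g, hg, hg2⟩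
      refine ⟨τ⁻¹ * g, hτ.inv.mul hg, ?_⟩
      rw [map_mul, hg2, map_inv, inv_mul_cancel_left]
    · rintro ⟨g, hg, rfl⟩
      exact ⟨τ * g, hτ.mul hg, map_mul _ _ _⟩
  have hθB : ∀ (τ : GQ), Fixes F τ → ∀ x, X x → θB (qq hζ k' τ * x) = θ (τ * pick x) := by
    intro τ hτ x hx
    have h1 : X (qq hζ k' τ * x) := (hXmul τ hτ x).2 hx
    simp only [θB, if_pos h1]
    obtain ⟨h2, h3⟩ := hpick _ h1
    obtain ⟨h4, h5⟩ := hpick _ hx
    refine hwd _ _ h2 (hτ.mul h4) ?_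
    rw [h3, map_mul, h5]
  have hθB' : ∀ x, X x → θB x = θ (pick x) := by
    intro x hx
    simp only [θB, if_pos hx]
  have hθB0 : ∀ x, ¬ X x → θB x = 0 := by
    intro x hx
    simp only [θB, if_neg hx]
  have hmu : ∀ ξ ∈ F ⊔ k', (∃ m : ℕ, 0 < m ∧ ξ ^ m = 1) → ξ ^ W = 1 := by
    intro ξ hξ hm
    exact (hW.2 ξ).1 ⟨(sup_le_sup_right hF.le k') hξ, hm⟩
  refine transfer ι K k k' hF.deg_k hF.normal hD f hf ζ hζ hk' 𝔪 hart.dvd art hart.art_k.down artK
    hart.art_K.down (cntAll F) (hA.1 (c * c₀) haF hD.a_k hD.a_K) ?_ ?_ zB θB ?_ ?_ ?_ ?_ W hW ?_ ?_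
    W' hW' hS
  · -- first symmetry
    intro n
    have h1 : Fixes k (σ₀ * (c * c₀)⁻¹) := hD.s_k.mul hD.a_k.inv
    have h2 : ¬ Fixes F (σ₀ * (c * c₀)⁻¹) := by
      intro h
      apply hs0F
      have h3 := h.mul haF
      rwa [inv_mul_cancel_right] at h3
    have hq : qq hζ k' (σ₀ * (c * c₀)⁻¹) = qq hζ k' σ₀ := by
      rw [qq_eq_iff hζ hk']
      intro x hx
      rw [AlgEquiv.mul_apply, hak'.inv x hx]
    have h : (cnt k (K ⊔ k ⊔ k') 𝔪 art σ₀ n : ℂ) =
        cnt k (K ⊔ k ⊔ k') 𝔪 art (σ₀ * (c * c₀)⁻¹) n := by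
      rw [cnt_sup hart.art_k.down hf hζ hM hart.dvd hk', cnt_sup hart.art_k.down hf hζ hM hart.dvd hk',
        hq]
      by_cases hn : n.Coprime f
      · have h3 := hA.2 σ₀ (σ₀ * (c * c₀)⁻¹) hD.s_k h1 hs0F h2 n hn
        have h4 : cnt k (K ⊔ k) 𝔪 art σ₀ n = cnt k (K ⊔ k) 𝔪 art (σ₀ * (c * c₀)⁻¹) n := h3
        rw [h4]
      · rw [ind_not, zero_mul, zero_mul]
        rwa [ZMod.isUnit_iff_coprime]
    exact_mod_cast h
  · -- second symmetry
    intro g hg n
    refine cnt_congr k _ 𝔪 art ?_ n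
    refine agree_sup (fun x hx => ?_) (fun x hx => ?_)
    · have hx2 : (c * c₀)⁻¹ x ∈ K ⊔ k := normal_mem hF.normal _ hx
      rw [AlgEquiv.mul_apply, AlgEquiv.mul_apply (c * c₀) g, hg _ hx2, hg x hx]
      rw [AlgEquiv.aut_inv, AlgEquiv.symm_apply_eq]
      exact (ha2 x hx).symm
    · have h4 : (c * c₀)⁻¹ x = x := hak'.inv x hx
      have h5 : (c * c₀) (g x) = g x := by
        rw [comm_adjoin hζ (c * c₀) g x (hk' hx), haζ' x (hk' hx)]
      rw [AlgEquiv.mul_apply, h4, AlgEquiv.mul_apply (c * c₀) g, h5]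
  · -- differentiability
    intro x
    by_cases hx : X x
    · simp only [zB, if_pos hx]
      exact (hDR _ (hpick x hx).1).1.1.1
    · simp only [zB, if_neg hx]
      exact differentiableOn_const 0
  · -- the Dirichlet series
    intro x s hs
    by_cases hx : X x
    · simp only [zB, if_pos hx]
      have h1 := (hDR _ (hpick x hx).1).1.1.2 s hs
      refine (LSeriesHasSum_congr s _ (fun {n} _ => ?_)).1 h1
      have h2 := hcntF _ (hpick x hx).1 n
      rw [(hpick x hx).2] at h2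
      exact h2
    · simp only [zB, if_neg hx]
      have h1 : ∀ n : ℕ, ind (pp hζ k') x (n : ZMod f) * (cntAll F n : ℂ) = 0 := by
        intro n
        by_cases hn : n.Coprime f
        · by_cases h0 : cntAll F n = 0
          · rw [h0, Nat.cast_zero, mul_zero]
          · have h2 : Nonempty {𝔟 : Ideals F // nrm F 𝔟 = n} := by
              by_contra hne
              rw [not_nonempty_iff] at hne
              exact h0 (Nat.card_eq_zero.2 (Or.inl hne))
            obtain ⟨𝔟, h𝔟⟩ := h2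
            have hc : IsCoprime 𝔟 (Ideal.span {(f : 𝓞 F)}) := by
              rw [coprime_norm]
              have : Ideal.absNorm 𝔟 = n := h𝔟
              rw [this]
              exact hn
            have h3 : qq hζ k' (artF 𝔟) = pp hζ k' (ZMod.unitOfCoprime n hn) := by
              refine qq_art hart.art_F.down hf hζ hMF le_rfl hc ?_
              have : Ideal.absNorm 𝔟 = n := h𝔟
              rw [ZMod.coe_unitOfCoprime, this]
            have h4 : ind (pp hζ k') x (n : ZMod f) = 0 := by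
              rw [← ZMod.coe_unitOfCoprime n hn, ind_unit, if_neg]
              intro h
              apply hx
              exact ⟨artF 𝔟, hart.art_F.down.fix 𝔟 hc, by rw [h3, h]⟩
            rw [h4, zero_mul]
        · rw [ind_not, zero_mul]
          rwa [ZMod.isUnit_iff_coprime]
      simp_rw [h1]
      unfold LSeriesHasSum
      have h2 : LSeries.term (fun _ : ℕ => (0 : ℂ)) s = fun _ => 0 := by
        funext n
        unfold LSeries.term
        split_ifs <;> simp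
      rw [h2]
      exact hasSum_zero
  · -- values at zero
    intro x
    by_cases hx : X x
    · simp only [zB, θB, if_pos hx]
      exact (hDR _ (hpick x hx).1).1.2
    · simp only [zB, θB, if_neg hx]
      norm_num
  · -- oddness
    intro x
    have hc₀F : Fixes F c₀ := hKF hD.c₀_K
    by_cases hx : X x
    · rw [hθB c₀ hc₀F x hx, hθB' x hx]
      refine (hDR _ (hpick x hx).1).2.1 c₀ ⟨ι.comp (σ₀ : Qbar →+* Qbar), ?_, ?_⟩
      · intro y hy
        exact hreal y (hF.le hy)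
      · intro y
        show ι (σ₀ (c₀ y)) = (starRingEnd ℂ) (ι (σ₀ y))
        rw [← hD.conj, ← AlgEquiv.mul_apply, hD.rel, AlgEquiv.mul_apply]
    · rw [hθB0 x hx, hθB0 _ (fun h => hx ((hXmul c₀ hc₀F x).1 h)), neg_zero]
  · -- integrality of `W θ`
    intro x
    by_cases hx : X x
    · obtain ⟨t, ht⟩ := (hDR _ (hpick x hx).1).2.2 1 (1 + W) (Fixes.one F) (by
        intro ξ hξ hm
        rw [AlgEquiv.one_apply, pow_add, pow_one, hmu ξ hξ hm, mul_one])
      rw [one_mul] at ht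
      refine ⟨-t, ?_⟩
      rw [hθB' x hx]
      push_cast at ht ⊢
      linarith
    · exact ⟨0, by rw [hθB0 x hx]; simp⟩
  · -- integrality of `(σ - n) θ`
    intro σ hσ
    have hσF : Fixes F σ := hKF hσ
    obtain ⟨n, -, hn⟩ := exists_pow hW.1 σ
    have h1 : ∀ x, ∃ u : ℤ, (u : ℚ) = θB (qq hζ k' σ * x) - n * θB x := by
      intro x
      by_cases hx : X x
      · obtain ⟨t, ht⟩ := (hDR _ (hpick x hx).1).2.2 σ n hσF (fun ξ hξ hm => hn ξ (hmu ξ hξ hm))
        exact ⟨t, by rw [hθB σ hσF x hx, hθB' x hx, ht]⟩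
      · exact ⟨0, by rw [hθB0 x hx, hθB0 _ (fun h => hx ((hXmul σ hσF x).1 h))]; simp⟩
    choose u hu using h1
    exact ⟨n, u, hn, hu⟩

end Pool.Agent.K4H33.SQ

namespace Pool.Agent.K4H33.SQ
open NumberField Module IntermediateField Pool.Agent.K4H33.SK
open Pool.Agent.K4H33.SK.Stmt (Sub Ideals nrm Cop prd principal cntAll PrimesOver)

/-- The rank one abelian Stark conjecture, in Tate's refined form, for an abelian extension `H` of a
number field `K`, the complex place of `K` given by `ι`, and the set `S` of places consisting of the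
infinite places and the primes dividing `𝔣`; here the other infinite places of `K` are real, and
the place given by `ι` splits completely because it is complex. There is a unit `ε` of `H`, of
absolute value one at all places above the real places of `K`, satisfying the limit formula, whose
`W`-th roots generate an abelian extension of `K`, where `W` is the number of roots of unity of
`H`. -/
def StarkATR (ι : Qbar →+* ℂ) (K H : Sub) [NumberField K] (𝔣 : Ideals K)
    (art : Ideals K → GQ) (W : ℕ) : Prop :=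
  ∃ (Z : GQ → ℂ → ℂ) (ε : Qbar), ε ∈ H ∧ ε ≠ 0 ∧ LimitFormula ι K W (Stmt.cnt K H 𝔣 art) Z ε ∧
    IsIntegral ℤ ε ∧ IsIntegral ℤ ε⁻¹ ∧
    (∀ w : Qbar →+* ℂ, (∀ x ∈ K, (w x).im = 0) → ‖w ε‖ = 1) ∧ AbelianRoot K W ε

theorem stark_quartic_general (ι : Qbar →+* ℂ) (F K k k' : Sub) [NumberField F] [NumberField K]
    [NumberField k] (f : ℕ) (ζ : Qbar) (hF : Fields ι F K k k' f ζ) (𝔪 : Ideals k)
    (art : Ideals k → GQ) (artK : Ideals K → GQ) (artF : Ideals F → GQ)
    (hart : Symbols F K k f ζ 𝔪 art artK artF) (hA : ArtinFactorization F K k f 𝔪 art)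
    (hDR : DeligneRibet F (F ⊔ k') (principal F f) artF) (W' : ℕ)
    (hW' : IsTorsionOrder (K ⊔ k ⊔ k') W') (hS : Stmt.StarkImQuad ι k (K ⊔ k ⊔ k') 𝔪 art W')
    (W : ℕ) (hW : IsTorsionOrder (K ⊔ k') W) (𝔣 : Ideals K) (h𝔣 : PrimesOver K f 𝔣) :
    StarkATR ι K (K ⊔ k') 𝔣 artK W := by
  have h1 := stark_quartic ι F K k k' f ζ hF 𝔪 art artK artF hart hA hDR W' hW' hS W hW
  have h2 := starkCubic_mul hart.art_K.down (sup_le_sup_left hF.sub K) le_sup_left hW.1 h1 𝔣 h𝔣.1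
  refine starkCubic_modulus (fun 𝔟 => ?_) h2
  rw [IsCoprime.mul_right_iff]
  refine ⟨fun h => h.2, fun h => ⟨?_, h⟩⟩
  rw [Ideal.isCoprime_iff_sup_eq]
  by_contra hne
  obtain ⟨P, hP, hle⟩ := Ideal.exists_le_maximal _ hne
  have hf' : (f : 𝓞 K) ∈ P := hle ((le_sup_right : _ ≤ 𝔟 ⊔ Ideal.span {(f : 𝓞 K)})
    (Ideal.mem_span_singleton_self _))
  apply hP.ne_top
  rw [Ideal.eq_top_iff_one]
  obtain ⟨i, hi, j, hj, hij⟩ := Ideal.isCoprime_iff_exists.1 h
  rw [← hij]
  exact P.add_mem (hle ((le_sup_left : 𝔟 ≤ 𝔟 ⊔ _) hi)) (h𝔣.2 P hP.isPrime hf' hj)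

end Pool.Agent.K4H33.SQ
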